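import Pool.Agent.H.MP_c90f74_nt.UT.RankA
import Pool.Agent.H.MP_42e49e_nt.Mer

/-!
# UT/RankB: the lower bound for the sum in the large sieve

PROOF. `rankin` with `h p = r/(p - r)`, `δ = 1/log z`. `0 ≤ h p ≤ 2 r/p` (`2 r ≤ p`), `exp t - 1 ≤ 2 t` for `0 ≤ t ≤ 1` (`t = log p/log z`), so
`∑ h (exp (δ log p) - 1) ≤ (4 r/log z) ∑_{p ≤ z} (log p)/p ≤ (4 r/log z)(log z + 2) ≤ 12 r` (`Pool.MP42e49e.mert_upper'`, `mert z = ∑_{p ∈ prm z} log p/p`; `log z ≥ 1` as `z ≥ 3`), and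
`12 r + 1 ≤ 13 r ≤ log Q/log z`. Then `1 + h p = p/(p - r) = 1/(1 - r/p) ≥ exp (r/p)` (`1 - t ≤ exp (-t)`), so `∏ (1 + h p) ≥ exp (r ∑ 1/p)`.
-/

set_option autoImplicit false

namespace Pool.Agent.H.MP_c90f74_nt.UT

open Finset

private theorem exp_sub_one_le {t : ℝ} (h0 : 0 ≤ t) (h1 : t ≤ 1) : Real.exp t - 1 ≤ 2 * t := by
  have h2 := Real.abs_exp_sub_one_sub_id_le (x := t) (by rw [abs_of_nonneg h0]; exact h1)
  have h3 := (abs_le.1 h2).2
  nlinarith

private theorem log_ge_one {z : ℕ} (hz : 3 ≤ z) : 1 ≤ Real.log z := by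
  rw [Real.le_log_iff_exp_le (by exact_mod_cast (by omega : 0 < z))]
  have h1 := Real.exp_one_lt_d9
  have h2 : (3 : ℝ) ≤ z := by exact_mod_cast hz
  linarith

theorem rank (P : Finset ℕ) (Q z r : ℕ) (hP : ∀ p ∈ P, p.Prime ∧ 2 * r ≤ p ∧ p ≤ z) (hr : 1 ≤ r)
    (hz : 3 ≤ z) (hQ1 : 1 ≤ Q) (hQ : 13 * (r : ℝ) * Real.log z ≤ Real.log Q) :
    Real.exp (r * ∑ p ∈ P, 1 / (p : ℝ)) / 2 ≤
      ∑ T ∈ P.powerset.filter (fun T => ∏ p ∈ T, p ≤ Q), ∏ p ∈ T, (r : ℝ) / ((p : ℝ) - r) := by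
  have hr' : (1 : ℝ) ≤ r := by exact_mod_cast hr
  have hlz := log_ge_one hz
  have hlz0 : 0 < Real.log z := by linarith
  have hfac : ∀ p ∈ P, (0 : ℝ) < p ∧ 2 * (r : ℝ) ≤ p ∧ 1 ≤ (p : ℝ) ∧ (p : ℝ) ≤ z := by
    intro p hp
    obtain ⟨h1, h2, h3⟩ := hP p hp
    have h4 : (1 : ℝ) ≤ p := by exact_mod_cast h1.one_lt.le
    exact ⟨by linarith, by exact_mod_cast h2, h4, by exact_mod_cast h3⟩
  have hmert : ∑ p ∈ P, Real.log p / (p : ℝ) ≤ Real.log z + 2 := by
    refine le_trans ?_ (Pool.MP42e49e.mert_upper' (x := z) (by omega))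
    unfold Pool.Agent.H.MP_3e6494_nt.mert
    refine Finset.sum_le_sum_of_subset_of_nonneg (fun p hp => ?_) fun p _ _ => ?_
    · obtain ⟨h1, h2, h3⟩ := hP p hp
      exact Pool.Agent.H.MP_3e6494_nt.mem_prm.2 ⟨h1, h3⟩
    · exact div_nonneg (Real.log_natCast_nonneg p) (Nat.cast_nonneg p)
  have key := rankin P (fun p => (r : ℝ) / ((p : ℝ) - r)) Q (1 / Real.log z) hQ1
    (by positivity) (fun p hp => by
      obtain ⟨h1, h2, h3, h4⟩ := hfac p hp
      exact ⟨(hP p hp).1.one_lt.le, div_nonneg (by linarith) (by linarith)⟩) (by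
      have hterm : ∀ p ∈ P, (r : ℝ) / ((p : ℝ) - r) *
          (Real.exp (1 / Real.log z * Real.log p) - 1) ≤
          4 * r / Real.log z * (Real.log p / p) := by
        intro p hp
        obtain ⟨h1, h2, h3, h4⟩ := hfac p hp
        have hl0 : 0 ≤ Real.log (p : ℝ) := Real.log_nonneg h3
        have hl1 : Real.log (p : ℝ) ≤ Real.log z := Real.log_le_log h1 h4
        have ht0 : 0 ≤ 1 / Real.log z * Real.log p := mul_nonneg (by positivity) hl0
        have ht1 : 1 / Real.log z * Real.log p ≤ 1 := by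
          rw [one_div, inv_mul_le_iff₀ hlz0]
          linarith
        have h5 := exp_sub_one_le ht0 ht1
        have h6 : (r : ℝ) / ((p : ℝ) - r) ≤ 2 * r / p := by
          rw [div_le_div_iff₀ (by linarith) h1]
          nlinarith
        have h7 : 0 ≤ Real.exp (1 / Real.log z * Real.log p) - 1 := by
          linarith [Real.one_le_exp ht0]
        calc (r : ℝ) / ((p : ℝ) - r) * (Real.exp (1 / Real.log z * Real.log p) - 1)
            ≤ 2 * r / p * (2 * (1 / Real.log z * Real.log p)) :=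
              mul_le_mul h6 h5 h7 (by positivity)
          _ = 4 * r / Real.log z * (Real.log p / p) := by ring
      have hsum := Finset.sum_le_sum hterm
      rw [← Finset.mul_sum] at hsum
      have h8 : 4 * r / Real.log z * ∑ p ∈ P, Real.log p / (p : ℝ) ≤ 12 * r := by
        have h9 : 4 * r / Real.log z * ∑ p ∈ P, Real.log p / (p : ℝ) ≤
            4 * r / Real.log z * (Real.log z + 2) :=
          mul_le_mul_of_nonneg_left hmert (by positivity)
        have h10 : 4 * (r : ℝ) / Real.log z * (Real.log z + 2) ≤ 12 * r := by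
          rw [div_mul_eq_mul_div, div_le_iff₀ hlz0]
          nlinarith
        linarith
      have h11 : 13 * (r : ℝ) ≤ 1 / Real.log z * Real.log Q := by
        rw [one_div, inv_mul_eq_div, le_div_iff₀ hlz0]
        exact hQ
      show ∑ p ∈ P, (r : ℝ) / ((p : ℝ) - r) * (Real.exp (1 / Real.log z * Real.log p) - 1) + 1 ≤
        1 / Real.log z * Real.log Q
      linarith)
  refine le_trans ?_ key
  have hprod : Real.exp (r * ∑ p ∈ P, 1 / (p : ℝ)) ≤
      ∏ p ∈ P, (1 + (r : ℝ) / ((p : ℝ) - r)) := by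
    rw [Finset.mul_sum, Real.exp_sum]
    refine Finset.prod_le_prod (fun p _ => (Real.exp_pos _).le) fun p hp => ?_
    obtain ⟨h1, h2, h3, h4⟩ := hfac p hp
    have h5 : 0 < (p : ℝ) - r := by linarith
    have h6 : 1 + (r : ℝ) / ((p : ℝ) - r) = (1 - r * (1 / (p : ℝ)))⁻¹ := by
      field_simp
      ring
    have h7 : 0 < 1 - r * (1 / (p : ℝ)) := by
      have : r * (1 / (p : ℝ)) < 1 := by
        rw [mul_one_div, div_lt_one h1]
        linarith
      linarith
    have h8 : 1 - r * (1 / (p : ℝ)) ≤ Real.exp (-(r * (1 / (p : ℝ)))) := by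
      have := Real.add_one_le_exp (-(r * (1 / (p : ℝ))))
      linarith
    rw [h6, ← inv_inv (Real.exp (r * (1 / (p : ℝ)))), ← Real.exp_neg]
    exact inv_anti₀ h7 h8
  exact div_le_div_of_nonneg_right hprod (by norm_num)

end Pool.Agent.H.MP_c90f74_nt.UT
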