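import Pool.Agent.H.MP_c90f74_nt.UT.Mont
import Pool.Agent.H.MP_c90f74_nt.UT.RankB
import Pool.Agent.H.MP_c90f74_nt.SF.Ord

/-!
# UT/Cnt: the sieve bound for a set of exponents

PROOF. `Z` = the set on the left (in `range H`), `P = SF.PP y z L`, `Q = Nat.sqrt H` (`Q^2 ≤ H`, `H < (Q + 1)^2 ≤ 4 Q^2`, so `log Q ≥ (log H)/2 - log 2 ≥ (log H)/4` as `H ≥ 16`, so
`13 r log z ≤ log Q`). For `p ∈ P`: `p` is prime, `p > y ≥ L^3 ≥ 2 L ≥ 2 r` (`r ≤ L` as `K ⊆ Icc 1 L`), `p ≤ z`; the classes of `2^k - x - 1`, `k ∈ K`, modulo `p` are `r` distinct classes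
(`SF.ord_inj`; take `(2^k + (p - (x + 1) % p)) % p`) and none of them is the class of a `j ∈ Z` (`p ∣ (x + 1 + j) - 2^k`, `2^k < x + 1 + j` for `k ∈ K ⊆ KK`),
so `(Z.image (· % p)).card + r ≤ p`. `mont2` and `rank`: `|Z| exp (r S)/2 ≤ 8 H`.
-/

set_option autoImplicit false

namespace Pool.Agent.H.MP_c90f74_nt.UT

open Finset

private theorem Cnt_class {x L y z r p : ℕ} (hy : 2 ≤ y) (K Z : Finset ℕ) (hK : K ⊆ Icc 1 L)
    (hKr : K.card = r) (hp : p ∈ SF.PP y z L) (hpp : p.Prime)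
    (hZ : ∀ j ∈ Z, K ⊆ SF.KK y z L (x + 1 + j)) :
    (Z.image (fun n => n % p)).card + r ≤ p := by
  classical
  have hp0 : 0 < p := hpp.pos
  have hc : ∀ k : ℕ, (2 ^ k + (p - (x + 1) % p)) % p + (x + 1) ≡ 2 ^ k [MOD p] := by
    intro k
    have h1 : (2 ^ k + (p - (x + 1) % p)) % p + (x + 1) ≡
        2 ^ k + (p - (x + 1) % p) + (x + 1) % p [MOD p] :=
      Nat.ModEq.add (Nat.mod_modEq _ _) (Nat.mod_modEq _ _).symm
    have h2 : 2 ^ k + (p - (x + 1) % p) + (x + 1) % p = 2 ^ k + p := by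
      have := Nat.mod_lt (x + 1) hp0
      omega
    rw [h2] at h1
    refine h1.trans ?_
    show (2 ^ k + p) % p = 2 ^ k % p
    exact Nat.add_mod_right _ _
  have hinj : Set.InjOn (fun k : ℕ => (2 ^ k + (p - (x + 1) % p)) % p) (K : Set ℕ) := by
    intro k hk k' hk' he
    have he' : (2 ^ k + (p - (x + 1) % p)) % p = (2 ^ k' + (p - (x + 1) % p)) % p := he
    have h2 := (hc k).symm
    rw [he'] at h2
    have h1 : 2 ^ k ≡ 2 ^ k' [MOD p] := h2.trans (hc k')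
    exact SF.ord_inj hy hp (hK (Finset.mem_coe.1 hk)) (hK (Finset.mem_coe.1 hk')) h1
  have hcard : (K.image (fun k : ℕ => (2 ^ k + (p - (x + 1) % p)) % p)).card = r := by
    rw [Finset.card_image_of_injOn hinj, hKr]
  have hdis : Disjoint (Z.image (fun n => n % p))
      (K.image (fun k : ℕ => (2 ^ k + (p - (x + 1) % p)) % p)) := by
    rw [Finset.disjoint_left]
    intro a ha hb
    obtain ⟨j, hj, hja⟩ := Finset.mem_image.1 ha
    obtain ⟨k, hk, hka⟩ := Finset.mem_image.1 hb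
    have h1 := hZ j hj hk
    unfold SF.KK at h1
    rw [Finset.mem_filter] at h1
    obtain ⟨-, h2, h3⟩ := h1
    refine h3 p hp ?_
    have h4 : 2 ^ k ≡ x + 1 + j [MOD p] := by
      have h5 := (hc k).symm
      rw [hka, ← hja] at h5
      refine h5.trans ?_
      have h6 : j % p + (x + 1) ≡ j + (x + 1) [MOD p] :=
        Nat.ModEq.add_right _ (Nat.mod_modEq _ _)
      rw [add_comm (x + 1) j]
      exact h6
    exact (Nat.modEq_iff_dvd' h2.le).1 h4
  rw [← hcard, ← Finset.card_union_of_disjoint hdis]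
  have hsub : Z.image (fun n => n % p) ∪
      K.image (fun k : ℕ => (2 ^ k + (p - (x + 1) % p)) % p) ⊆ range p := by
    intro a ha
    rcases Finset.mem_union.1 ha with h | h
    · obtain ⟨j, -, rfl⟩ := Finset.mem_image.1 h
      exact Finset.mem_range.2 (Nat.mod_lt _ hp0)
    · obtain ⟨k, -, rfl⟩ := Finset.mem_image.1 h
      exact Finset.mem_range.2 (Nat.mod_lt _ hp0)
  exact (Finset.card_le_card hsub).trans (le_of_eq (Finset.card_range p))

open Classical in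
theorem cnt2 (x H L y z r : ℕ) (hL : 2 ≤ L) (hy : L ^ 3 ≤ y) (hz : 3 ≤ z) (hr : 1 ≤ r)
    (hH : 16 ≤ H) (hzH : 52 * (r : ℝ) * Real.log z ≤ Real.log H)
    (K : Finset ℕ) (hK : K ⊆ Icc 1 L) (hKr : K.card = r) :
    (((range H).filter (fun j => K ⊆ SF.KK y z L (x + 1 + j))).card : ℝ) ≤
      16 * H * Real.exp (-(r * ∑ p ∈ SF.PP y z L, 1 / (p : ℝ))) := by
  generalize hZdef : (range H).filter (fun j => K ⊆ SF.KK y z L (x + 1 + j)) = Z
  have hL3 : 4 * L ≤ L ^ 3 := by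
    have h1 : L ^ 3 = L * L * L := by ring
    rw [h1]
    have h2 : 2 * 2 ≤ L * L := Nat.mul_le_mul hL hL
    exact Nat.mul_le_mul_right L h2
  have hy2 : 2 ≤ y := by omega
  have hrL : r ≤ L := by
    rw [← hKr]
    refine (Finset.card_le_card hK).trans ?_
    rw [Nat.card_Icc]
    omega
  have hpP : ∀ p ∈ SF.PP y z L, p.Prime ∧ y < p ∧ p ≤ z := by
    intro p hp
    unfold SF.PP at hp
    rw [Finset.mem_filter, Finset.mem_Ioc] at hp
    exact ⟨hp.2.1, hp.1.1, hp.1.2⟩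
  have hZr : Z ⊆ range H := by
    rw [← hZdef]
    exact Finset.filter_subset _ _
  have hZm : ∀ j ∈ Z, K ⊆ SF.KK y z L (x + 1 + j) := by
    intro j hj
    rw [← hZdef, Finset.mem_filter] at hj
    exact hj.2
  have h2r : ∀ p ∈ SF.PP y z L, 2 * r < p := by
    intro p hp
    have := (hpP p hp).2.1
    omega
  have hQ2 : Nat.sqrt H ^ 2 ≤ H := Nat.sqrt_le' H
  have hQ3 : H < (Nat.sqrt H + 1) ^ 2 := Nat.lt_succ_sqrt' H
  have hQ4 : 4 ≤ Nat.sqrt H := Nat.le_sqrt.2 (by omega)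
  have hQ5 : 13 * (r : ℝ) * Real.log z ≤ Real.log (Nat.sqrt H : ℕ) := by
    have h1 : H ≤ (2 * Nat.sqrt H) ^ 2 :=
      hQ3.le.trans (Nat.pow_le_pow_left (by omega) 2)
    have h2 : (H : ℝ) ≤ (2 * (Nat.sqrt H : ℕ) : ℝ) ^ 2 := by exact_mod_cast h1
    have hH0 : (0 : ℝ) < H := by
      have h3 : (16 : ℝ) ≤ H := by exact_mod_cast hH
      linarith
    have hQ0 : (0 : ℝ) < (Nat.sqrt H : ℕ) := by
      have h3 : (4 : ℝ) ≤ (Nat.sqrt H : ℕ) := by exact_mod_cast hQ4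
      linarith
    have h4 : Real.log H ≤ 2 * (Real.log 2 + Real.log (Nat.sqrt H : ℕ)) := by
      have h5 := Real.log_le_log hH0 h2
      rwa [Real.log_pow, Real.log_mul (by norm_num) hQ0.ne', Nat.cast_ofNat] at h5
    have h6 : 4 * Real.log 2 ≤ Real.log H := by
      have h7 : Real.log ((2 : ℝ) ^ 4) ≤ Real.log H :=
        Real.log_le_log (by norm_num) (by norm_num; exact_mod_cast hH)
      rwa [Real.log_pow, Nat.cast_ofNat] at h7
    linarith
  have hM := mont2 Z (SF.PP y z L) H (Nat.sqrt H) r hZr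
    (fun p hp => ⟨(hpP p hp).1, by have := h2r p hp; omega,
      Cnt_class (x := x) hy2 K Z hK hKr hp (hpP p hp).1 hZm⟩) (by omega) hQ2
  have hR := rank (SF.PP y z L) (Nat.sqrt H) z r
    (fun p hp => ⟨(hpP p hp).1, (h2r p hp).le, (hpP p hp).2.2⟩) hr hz (by omega) hQ5
  have h1 : (Z.card : ℝ) * (Real.exp (r * ∑ p ∈ SF.PP y z L, 1 / (p : ℝ)) / 2) ≤ 8 * H :=
    (mul_le_mul_of_nonneg_left hR (Nat.cast_nonneg _)).trans hM
  rw [Real.exp_neg, ← div_eq_mul_inv, le_div_iff₀ (Real.exp_pos _)]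
  linarith

end Pool.Agent.H.MP_c90f74_nt.UT
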