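import Pool.Agent.H.MP_c90f74_nt.SF.Ord
import Pool.Agent.H.MP_711652_nt.LG.PrimeSum

/-!
# UT/SumP: the sum of `1/p` over the primes used

PROOF. `SF.ord_sum` (`∑_{(y, z]} 1/p - 1 ≤ ∑_{PP} 1/p`), `LG.PrimeSum_FF_sub` (`∑_{(y, z]} 1/p = FF z - FF y`), `Pool.MP42e49e.window` (`loglog z - loglog y - 12/log y ≤ FF z - FF y`) and
`log y ≥ 1` (`y ≥ 3`).
-/

set_option autoImplicit false

namespace Pool.Agent.H.MP_c90f74_nt.UT

open Finset

theorem sumPP (y z L : ℕ) (hL : 1 ≤ L) (hy : L ^ 3 ≤ y) (hy3 : 3 ≤ y) (hyz : y ≤ z) :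
    Real.log (Real.log z) - Real.log (Real.log y) - 13 ≤ ∑ p ∈ SF.PP y z L, 1 / (p : ℝ) := by
  have h1 := SF.ord_sum y z L hL hy
  have h2 := Pool.Agent.H.MP_711652_nt.LG.PrimeSum_FF_sub hyz
  have h3 := (Pool.MP42e49e.window (by omega : 2 ≤ y) hyz).2
  have hy1 : (3 : ℝ) ≤ y := by exact_mod_cast hy3
  have hlog : 1 ≤ Real.log y := by
    rw [Real.le_log_iff_exp_le (by linarith)]
    have := Real.exp_one_lt_d9
    linarith
  have h4 : 12 / Real.log y ≤ 12 := by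
    rw [div_le_iff₀ (by linarith)]
    linarith
  have h5 : (∑ p ∈ (Ioc y z).filter Nat.Prime, 1 / (p : ℝ)) =
      Pool.MP42e49e.FF z - Pool.MP42e49e.FF y := h2
  linarith

end Pool.Agent.H.MP_c90f74_nt.UT
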