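import Pool.Agent.H.MP_c90f74_nt.SF.Defs

/-!
# UT/Good: the exponents with `n - 2^k` prime

PROOF. `L = Nat.log 2 x + 1`. If `2^k < n ≤ 2 x`, then `k ≤ L` (`Nat.le_log_of_pow_le`, `Nat.log_mul_base`). If `n - 2^k` is prime and `k ∉ KK y z L n` (`1 ≤ k`), then some `p ∈ PP y z L`
divides `n - 2^k`, so `n - 2^k = p ≤ z`. There is at most one such `k`: for `k < k'` with `n - 2^k ≤ z`: `2^k ≥ n - z > x - z ≥ z` and `2^(k') ≥ 2 * 2^k`, so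
`n > 2^(k') ≥ 2^k + 2^k > 2^k + z ≥ n`. So the set on the left is contained in `KK ∪ S` with `|S| ≤ 1`.
-/

set_option autoImplicit false

namespace Pool.Agent.H.MP_c90f74_nt.UT

open Finset

/-- The number of the `k ≥ 1`, `2^k < n`, such that `n - 2^k` is prime. -/
noncomputable def rep (n : ℕ) : ℕ := {k : ℕ | 1 ≤ k ∧ 2 ^ k < n ∧ (n - 2 ^ k).Prime}.ncard

private lemma exp_le (x n k : ℕ) (hn2 : n ≤ 2 * x) (hk : 1 ≤ k) (h : 2 ^ k < n) :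
    k ≤ Nat.log 2 x + 1 := by
  obtain ⟨j, rfl⟩ : ∃ j, k = j + 1 := ⟨k - 1, by omega⟩
  have h1 : 2 ^ j ≤ x := by
    rw [pow_succ] at h
    omega
  have h2 := Nat.le_log_of_pow_le (by norm_num : 1 < 2) h1
  omega

private lemma one_lt (x n z a b : ℕ) (hn : x < n) (hz : 2 * z ≤ x) (ha : 2 ^ a < n)
    (ha2 : n - 2 ^ a ≤ z) (hb : 2 ^ b < n) (hab : a < b) : False := by
  have h1 : 2 ^ (a + 1) ≤ 2 ^ b := Nat.pow_le_pow_right (by norm_num) hab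
  rw [pow_succ] at h1
  omega

theorem good2 (x n y z : ℕ) (hx : 1 ≤ x) (hn : x < n) (hn2 : n ≤ 2 * x) (hz : 2 * z ≤ x) :
    rep n ≤ (SF.KK y z (Nat.log 2 x + 1) n).card + 1 := by
  classical
  obtain ⟨S2, hS2⟩ : ∃ S2 : Finset ℕ,
      S2 = (Icc 1 (Nat.log 2 x + 1)).filter (fun k => 2 ^ k < n ∧ n - 2 ^ k ≤ z) := ⟨_, rfl⟩
  have hc : S2.card ≤ 1 := by
    rw [Finset.card_le_one]
    intro a ha b hb
    rw [hS2, Finset.mem_filter] at ha hb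
    rcases lt_trichotomy a b with h | h | h
    · exact (one_lt x n z a b hn hz ha.2.1 ha.2.2 hb.2.1 h).elim
    · exact h
    · exact (one_lt x n z b a hn hz hb.2.1 hb.2.2 ha.2.1 h).elim
  have hsub : {k : ℕ | 1 ≤ k ∧ 2 ^ k < n ∧ (n - 2 ^ k).Prime} ⊆
      (↑(SF.KK y z (Nat.log 2 x + 1) n ∪ S2) : Set ℕ) := by
    intro k hk
    obtain ⟨h1, h2, h3⟩ := hk
    have h4 := exp_le x n k hn2 h1 h2
    rw [Finset.mem_coe, Finset.mem_union]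
    by_cases h5 : ∀ p ∈ SF.PP y z (Nat.log 2 x + 1), ¬ p ∣ n - 2 ^ k
    · left
      unfold SF.KK
      rw [Finset.mem_filter, Finset.mem_Icc]
      exact ⟨⟨h1, h4⟩, h2, h5⟩
    · right
      push Not at h5
      obtain ⟨p, hp, hpd⟩ := h5
      unfold SF.PP at hp
      rw [Finset.mem_filter, Finset.mem_Ioc] at hp
      have h6 : p = n - 2 ^ k := (Nat.prime_dvd_prime_iff_eq hp.2.1 h3).1 hpd
      rw [hS2, Finset.mem_filter, Finset.mem_Icc]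
      exact ⟨⟨h1, h4⟩, h2, by rw [← h6]; exact hp.1.2⟩
  unfold rep
  calc {k : ℕ | 1 ≤ k ∧ 2 ^ k < n ∧ (n - 2 ^ k).Prime}.ncard
      ≤ (↑(SF.KK y z (Nat.log 2 x + 1) n ∪ S2) : Set ℕ).ncard :=
        Set.ncard_le_ncard hsub (Finset.finite_toSet _)
    _ = (SF.KK y z (Nat.log 2 x + 1) n ∪ S2).card := Set.ncard_coe_finset _
    _ ≤ (SF.KK y z (Nat.log 2 x + 1) n).card + S2.card := Finset.card_union_le _ _
    _ ≤ (SF.KK y z (Nat.log 2 x + 1) n).card + 1 := by omega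

/-- PROOF. `n ≤ 2 x`: the set is contained in `Icc 1 (Nat.log 2 x + 1)`. -/
theorem rep_le (x n : ℕ) (hx : 1 ≤ x) (hn2 : n ≤ 2 * x) : rep n ≤ Nat.log 2 x + 1 := by
  have hsub : {k : ℕ | 1 ≤ k ∧ 2 ^ k < n ∧ (n - 2 ^ k).Prime} ⊆
      (↑(Icc 1 (Nat.log 2 x + 1)) : Set ℕ) := by
    intro k hk
    rw [Finset.mem_coe, Finset.mem_Icc]
    exact ⟨hk.1, exp_le x n k hn2 hk.1 hk.2.1⟩
  unfold rep
  calc {k : ℕ | 1 ≤ k ∧ 2 ^ k < n ∧ (n - 2 ^ k).Prime}.ncard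
      ≤ (↑(Icc 1 (Nat.log 2 x + 1)) : Set ℕ).ncard :=
        Set.ncard_le_ncard hsub (Finset.finite_toSet _)
    _ = (Icc 1 (Nat.log 2 x + 1)).card := Set.ncard_coe_finset _
    _ = Nat.log 2 x + 1 := by rw [Nat.card_Icc]; omega

end Pool.Agent.H.MP_c90f74_nt.UT
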