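import Pool.Agent.H.MP_c90f74_nt.UT.Tail

/-!
# UT/Main: the theorem

PROOF. `C₁, c₁` from `tail`, `c = c₁/8`. If `T log H ≤ 6 log x loglog x`, the set has at most `H` elements and `exp (-c T log H/(log x loglog x)) ≥ exp (-6 c)`, so `C ≥ exp (6 c)` does it.
Otherwise `T > 2`. If `H < 16`, then `T > L` and the set is empty by `rep_le`. Let `H ≥ 16`, `t = ⌈T⌉₊ - 1 ≥ T - 1 ≥ T/2`: `T ≤ rep n`
gives `t + 1 ≤ rep n`; `L = Nat.log 2 x + 1 ≤ 2 log x` and `log L ≤ 2 loglog x` for `x ≥ 64`, so `c₁ t log H/(L log L) ≥ c₁ T log H/(8 log x loglog x)`.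
-/

set_option autoImplicit false

namespace Pool.Agent.H.MP_c90f74_nt.UT

private theorem UTMain_log (x : ℕ) (hx : 64 ≤ x) :
    4 ≤ Real.log x ∧ 1 ≤ Real.log (Real.log x) ∧
      ((Nat.log 2 x + 1 : ℕ) : ℝ) ≤ 2 * Real.log x ∧
      Real.log ((Nat.log 2 x + 1 : ℕ) : ℝ) ≤ 2 * Real.log (Real.log x) := by
  have h2a := Real.log_two_gt_d9
  have h2b := Real.log_two_lt_d9
  have hx' : (64 : ℝ) ≤ (x : ℝ) := by exact_mod_cast hx
  have hxpos : (0 : ℝ) < (x : ℝ) := by linarith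
  have h64 : Real.log 64 = 6 * Real.log 2 := by
    have : (64 : ℝ) = 2 ^ 6 := by norm_num
    rw [this, Real.log_pow]
    norm_num
  have h1 : 4 ≤ Real.log x := by
    have := Real.log_le_log (by norm_num : (0 : ℝ) < 64) hx'
    rw [h64] at this
    linarith
  have hlpos : 0 < Real.log x := by linarith
  have h2 : 1 ≤ Real.log (Real.log x) := by
    rw [Real.le_log_iff_exp_le hlpos]
    have := Real.exp_one_lt_d9
    linarith
  have hpow : (2 : ℝ) ^ (Nat.log 2 x) ≤ (x : ℝ) := by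
    exact_mod_cast Nat.pow_log_le_self 2 (by omega : x ≠ 0)
  have hN : (Nat.log 2 x : ℝ) * Real.log 2 ≤ Real.log x := by
    have := Real.log_le_log (by positivity) hpow
    rwa [Real.log_pow] at this
  have hN0 : (0 : ℝ) ≤ (Nat.log 2 x : ℝ) := Nat.cast_nonneg _
  have h3 : ((Nat.log 2 x + 1 : ℕ) : ℝ) ≤ 2 * Real.log x := by
    push_cast
    nlinarith
  have h4 : Real.log ((Nat.log 2 x + 1 : ℕ) : ℝ) ≤ 2 * Real.log (Real.log x) := by
    have hp : (0 : ℝ) < ((Nat.log 2 x + 1 : ℕ) : ℝ) := by positivity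
    have := Real.log_le_log hp h3
    rw [Real.log_mul (by norm_num) hlpos.ne'] at this
    linarith
  exact ⟨h1, h2, h3, h4⟩

private theorem UTMain_triv (x H : ℕ) (P : ℕ → Prop) :
    (({n : ℕ | x < n ∧ n ≤ x + H ∧ P n}.ncard : ℕ) : ℝ) ≤ (H : ℝ) := by
  have hsub : {n : ℕ | x < n ∧ n ≤ x + H ∧ P n} ⊆ ((Finset.Ioc x (x + H) : Finset ℕ) : Set ℕ) := by
    intro n hn
    simp only [Finset.coe_Ioc, Set.mem_Ioc]
    exact ⟨hn.1, hn.2.1⟩
  have h := Set.ncard_le_ncard hsub (Finset.finite_toSet _)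
  rw [Set.ncard_coe_finset, Nat.card_Ioc] at h
  have h' : {n : ℕ | x < n ∧ n ≤ x + H ∧ P n}.ncard ≤ H := by omega
  exact_mod_cast h'

theorem main : ∃ C c : ℝ, 0 < c ∧ ∀ x H : ℕ, 64 ≤ x → 1 ≤ H → H ≤ x → ∀ T : ℝ,
    ({n : ℕ | x < n ∧ n ≤ x + H ∧
      T ≤ (({k : ℕ | 1 ≤ k ∧ 2 ^ k < n ∧ (n - 2 ^ k).Prime}.ncard : ℕ) : ℝ)}.ncard : ℝ) ≤
      C * H * Real.exp (-(c * T * Real.log H / (Real.log x * Real.log (Real.log x)))) := by
  obtain ⟨C₁, c₁, hC₁, hc₁, htail⟩ := tail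
  refine ⟨C₁ + Real.exp (6 * (c₁ / 8)), c₁ / 8, by positivity, ?_⟩
  intro x H hx hH hHx T
  change ({n : ℕ | x < n ∧ n ≤ x + H ∧ T ≤ ((rep n : ℕ) : ℝ)}.ncard : ℝ) ≤ _
  obtain ⟨hl4, hll, hL, hlL⟩ := UTMain_log x hx
  set lx := Real.log (x : ℝ) with hlx
  set llx := Real.log lx with hllx
  set lH := Real.log (H : ℝ) with hlH
  have hH1 : (1 : ℝ) ≤ (H : ℝ) := by exact_mod_cast hH
  have hHx' : (H : ℝ) ≤ (x : ℝ) := by exact_mod_cast hHx
  have hlH0 : 0 ≤ lH := Real.log_nonneg hH1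
  have hlHx : lH ≤ lx := Real.log_le_log (by linarith) hHx'
  have hprod : 0 < lx * llx := by
    apply mul_pos <;> linarith
  have hH0 : (0 : ℝ) < (H : ℝ) := by linarith
  by_cases hsmall : T * lH ≤ 6 * (lx * llx)
  · -- the trivial bound
    have h1 := UTMain_triv x H (fun n => T ≤ ((rep n : ℕ) : ℝ))
    have hexp : c₁ / 8 * T * lH / (lx * llx) ≤ 6 * (c₁ / 8) := by
      rw [div_le_iff₀ hprod]
      have : c₁ / 8 * (T * lH) ≤ c₁ / 8 * (6 * (lx * llx)) :=
        mul_le_mul_of_nonneg_left hsmall (by positivity)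
      linarith
    have hge : Real.exp (-(6 * (c₁ / 8))) ≤ Real.exp (-(c₁ / 8 * T * lH / (lx * llx))) := by
      apply Real.exp_le_exp.mpr
      linarith
    calc (({n : ℕ | x < n ∧ n ≤ x + H ∧ T ≤ ((rep n : ℕ) : ℝ)}.ncard : ℕ) : ℝ) ≤ (H : ℝ) := h1
      _ = Real.exp (6 * (c₁ / 8)) * H * Real.exp (-(6 * (c₁ / 8))) := by
          rw [mul_right_comm, ← Real.exp_add, add_neg_cancel, Real.exp_zero, one_mul]
      _ ≤ Real.exp (6 * (c₁ / 8)) * H * Real.exp (-(c₁ / 8 * T * lH / (lx * llx))) :=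
          mul_le_mul_of_nonneg_left hge (by positivity)
      _ ≤ (C₁ + Real.exp (6 * (c₁ / 8))) * H * Real.exp (-(c₁ / 8 * T * lH / (lx * llx))) := by
          apply mul_le_mul_of_nonneg_right _ (Real.exp_pos _).le
          apply mul_le_mul_of_nonneg_right _ hH0.le
          linarith
  · push Not at hsmall
    have hll1 : lx ≤ lx * llx := by nlinarith
    have hT2 : 2 < T := by
      by_contra hcon
      push Not at hcon
      have : T * lH ≤ 2 * lH := mul_le_mul_of_nonneg_right hcon hlH0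
      linarith
    by_cases h16 : H < 16
    · -- the set is empty
      have hlH3 : lH ≤ 3 := by
        have h16' : (H : ℝ) ≤ 16 := by exact_mod_cast h16.le
        have h := Real.log_le_log hH0 h16'
        have h16'' : Real.log 16 = 4 * Real.log 2 := by
          have : (16 : ℝ) = 2 ^ 4 := by norm_num
          rw [this, Real.log_pow]
          norm_num
        rw [h16''] at h
        have := Real.log_two_lt_d9
        linarith
      have hTL : ((Nat.log 2 x + 1 : ℕ) : ℝ) < T := by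
        by_contra hcon
        push Not at hcon
        have h1 : T ≤ 2 * lx := hcon.trans hL
        have h2 : T * lH ≤ 2 * lx * 3 :=
          mul_le_mul h1 hlH3 hlH0 (by linarith)
        linarith
      have hempty : {n : ℕ | x < n ∧ n ≤ x + H ∧ T ≤ ((rep n : ℕ) : ℝ)} = ∅ := by
        apply Set.eq_empty_of_forall_notMem
        rintro n ⟨_, hn2, hn3⟩
        have h := rep_le x n (by omega) (by omega)
        have h' : ((rep n : ℕ) : ℝ) ≤ ((Nat.log 2 x + 1 : ℕ) : ℝ) := by exact_mod_cast h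
        linarith
      rw [hempty, Set.ncard_empty]
      simp only [Nat.cast_zero]
      positivity
    · push Not at h16
      have hceil1 : T ≤ ((⌈T⌉₊ : ℕ) : ℝ) := Nat.le_ceil T
      have hceil2 : 1 ≤ ⌈T⌉₊ := by
        have : (0 : ℝ) < ((⌈T⌉₊ : ℕ) : ℝ) := by linarith
        exact_mod_cast this
      obtain ⟨t, ht⟩ : ∃ t : ℕ, ⌈T⌉₊ = t + 1 := ⟨⌈T⌉₊ - 1, by omega⟩
      have htT : T / 2 ≤ (t : ℝ) := by
        rw [ht] at hceil1
        push_cast at hceil1
        linarith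
      have h := htail x H t hx h16 hHx
      have hsub : {n : ℕ | x < n ∧ n ≤ x + H ∧ T ≤ ((rep n : ℕ) : ℝ)} ⊆
          {n : ℕ | x < n ∧ n ≤ x + H ∧ t + 1 ≤ rep n} := by
        rintro n ⟨hn1, hn2, hn3⟩
        refine ⟨hn1, hn2, ?_⟩
        rw [← ht]
        exact Nat.ceil_le.mpr hn3
      have hfin : {n : ℕ | x < n ∧ n ≤ x + H ∧ t + 1 ≤ rep n}.Finite :=
        (Set.finite_Ioc x (x + H)).subset (fun n hn => ⟨hn.1, hn.2.1⟩)
      have hcard := Set.ncard_le_ncard hsub hfin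
      have hcard' : (({n : ℕ | x < n ∧ n ≤ x + H ∧ T ≤ ((rep n : ℕ) : ℝ)}.ncard : ℕ) : ℝ) ≤
          (({n : ℕ | x < n ∧ n ≤ x + H ∧ t + 1 ≤ rep n}.ncard : ℕ) : ℝ) := by
        exact_mod_cast hcard
      set L : ℝ := ((Nat.log 2 x + 1 : ℕ) : ℝ) with hLdef
      have hNlog : 1 ≤ Nat.log 2 x := by
        apply Nat.log_pos (by norm_num) (by omega)
      have hL2 : (2 : ℝ) ≤ L := by
        rw [hLdef]
        exact_mod_cast (by omega : 2 ≤ Nat.log 2 x + 1)
      have hlLpos : 0 < Real.log L := Real.log_pos (by linarith)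
      have hLL : L * Real.log L ≤ 4 * (lx * llx) := by
        have := mul_le_mul hL hlL hlLpos.le (by linarith)
        linarith
      have hLLpos : 0 < L * Real.log L := mul_pos (by linarith) hlLpos
      have hexp : c₁ / 8 * T * lH / (lx * llx) ≤ c₁ * t * lH / (L * Real.log L) := by
        rw [div_le_div_iff₀ hprod hLLpos]
        have hT0 : 0 ≤ c₁ / 8 * T * lH := by positivity
        calc c₁ / 8 * T * lH * (L * Real.log L) ≤ c₁ / 8 * T * lH * (4 * (lx * llx)) :=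
              mul_le_mul_of_nonneg_left hLL hT0
          _ = c₁ * (T / 2) * lH * (lx * llx) := by ring
          _ ≤ c₁ * t * lH * (lx * llx) := by
              apply mul_le_mul_of_nonneg_right _ hprod.le
              apply mul_le_mul_of_nonneg_right _ hlH0
              exact mul_le_mul_of_nonneg_left htT hc₁.le
      have hge : Real.exp (-(c₁ * t * lH / (L * Real.log L))) ≤
          Real.exp (-(c₁ / 8 * T * lH / (lx * llx))) := by
        apply Real.exp_le_exp.mpr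
        linarith
      calc (({n : ℕ | x < n ∧ n ≤ x + H ∧ T ≤ ((rep n : ℕ) : ℝ)}.ncard : ℕ) : ℝ)
          ≤ (({n : ℕ | x < n ∧ n ≤ x + H ∧ t + 1 ≤ rep n}.ncard : ℕ) : ℝ) := hcard'
        _ ≤ C₁ * H * Real.exp (-(c₁ * t * lH / (L * Real.log L))) := h
        _ ≤ C₁ * H * Real.exp (-(c₁ / 8 * T * lH / (lx * llx))) :=
            mul_le_mul_of_nonneg_left hge (by positivity)
        _ ≤ (C₁ + Real.exp (6 * (c₁ / 8))) * H *
              Real.exp (-(c₁ / 8 * T * lH / (lx * llx))) := by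
            apply mul_le_mul_of_nonneg_right _ (Real.exp_pos _).le
            apply mul_le_mul_of_nonneg_right _ hH0.le
            have := Real.exp_pos (6 * (c₁ / 8))
            linarith

end Pool.Agent.H.MP_c90f74_nt.UT
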