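import Pool.Agent.H.MP_c90f74_nt.SF.MonC
import Pool.Agent.H.MP_711652_nt.CH.LsAdd

/-!
# UT/Mont: Montgomery's sieve with all products of primes up to `Q`

PROOF. `ls_add` (CH/LsAdd) with `a l = 1` for `l ∈ Z` and `0` else: the right side is `8 N |Z|`. For `T ⊆ P` with `q = ∏ T ≤ Q`: `SF.FF Z q 0` is the part of the sum over
`farey Q` with first coordinate `q`; `T ↦ ∏ T` is injective on sets of primes (`Nat.primeFactors_prod`), so `∑_T SF.FF Z (∏ T) 0 ≤ ∑_{farey Q}`. By `SF.mon_prod` (with `β = 0` the sum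
is `|Z|`) the left side is at least `|Z|^2 ∑_T ∏ r/(p - r)`. Divide by `|Z|` (`Z = ∅` is trivial). The same proof as SF/MonD.
-/

set_option autoImplicit false

namespace Pool.Agent.H.MP_c90f74_nt.UT

open Finset

private theorem Mont_farey (Q : ℕ) (g : ℕ → ℕ → ℝ) :
    ∑ z ∈ MP_711652_nt.CH.farey Q, g z.1 z.2 =
      ∑ q ∈ Icc 1 Q, ∑ u ∈ (range q).filter (fun u => Nat.Coprime u q), g q u := by
  unfold MP_711652_nt.CH.farey
  rw [Finset.sum_filter, Finset.sum_product]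
  refine Finset.sum_congr rfl (fun q hq => ?_)
  rw [← Finset.sum_filter]
  refine Finset.sum_congr ?_ (fun _ _ => rfl)
  rw [Finset.mem_Icc] at hq
  ext u
  simp only [Finset.mem_filter, Finset.mem_range]
  constructor
  · rintro ⟨_, h2, h3⟩
    exact ⟨h2, h3⟩
  · rintro ⟨h2, h3⟩
    exact ⟨by omega, h2, h3⟩

private theorem Mont_sum (Z : Finset ℕ) (N : ℕ) (hZ : Z ⊆ range N) (x : ℝ) :
    ∑ l ∈ range N, (if l ∈ Z then (1 : ℂ) else 0) * MP_711652_nt.CH.ee (l * x) =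
      ∑ n ∈ Z, MP_711652_nt.CH.ee ((n : ℝ) * x) := by
  simp only [ite_mul, one_mul, zero_mul]
  rw [← Finset.sum_filter]
  refine Finset.sum_congr ?_ (fun _ _ => rfl)
  ext l
  simp only [Finset.mem_filter]
  exact ⟨fun h => h.2, fun h => ⟨hZ h, h⟩⟩

private theorem Mont_card (Z : Finset ℕ) (N : ℕ) (hZ : Z ⊆ range N) :
    ∑ l ∈ range N, ‖(if l ∈ Z then (1 : ℂ) else 0)‖ ^ 2 = (Z.card : ℝ) := by
  have h1 : ∀ l ∈ range N, ‖(if l ∈ Z then (1 : ℂ) else 0)‖ ^ 2 = if l ∈ Z then (1 : ℝ) else 0 := by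
    intro l _
    split_ifs <;> simp
  rw [Finset.sum_congr rfl h1, ← Finset.sum_filter]
  have h2 : (range N).filter (fun l => l ∈ Z) = Z := by
    ext l
    simp only [Finset.mem_filter]
    exact ⟨fun h => h.2, fun h => ⟨hZ h, h⟩⟩
  rw [h2]
  simp

theorem mont2 (Z P : Finset ℕ) (N Q r : ℕ) (hZ : Z ⊆ range N)
    (hP : ∀ p ∈ P, p.Prime ∧ r < p ∧ (Z.image (fun n => n % p)).card + r ≤ p)
    (hQ : 1 ≤ Q) (hN : Q ^ 2 ≤ N) :
    (Z.card : ℝ) * ∑ T ∈ P.powerset.filter (fun T => ∏ p ∈ T, p ≤ Q),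
      ∏ p ∈ T, (r : ℝ) / ((p : ℝ) - r) ≤ 8 * N := by
  classical
  rcases Finset.eq_empty_or_nonempty Z with hZe | hZe
  · rw [hZe]
    simp
  have hZc : (0 : ℝ) < Z.card := by exact_mod_cast hZe.card_pos
  have hls := MP_711652_nt.CH.ls_add Q N hQ hN (fun l => if l ∈ Z then (1 : ℂ) else 0)
  rw [Mont_card Z N hZ] at hls
  have hlhs : ∑ z ∈ MP_711652_nt.CH.farey Q,
      ‖∑ l ∈ range N, (if l ∈ Z then (1 : ℂ) else 0) *
        MP_711652_nt.CH.ee (l * ((z.2 : ℝ) / z.1))‖ ^ 2 =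
      ∑ q ∈ Icc 1 Q, SF.FF Z q 0 := by
    have h1 : ∀ z ∈ MP_711652_nt.CH.farey Q,
      ‖∑ l ∈ range N, (if l ∈ Z then (1 : ℂ) else 0) *
        MP_711652_nt.CH.ee (l * ((z.2 : ℝ) / z.1))‖ ^ 2 =
        (fun q u : ℕ => ‖∑ n ∈ Z, MP_711652_nt.CH.ee ((n : ℝ) * ((u : ℝ) / q + 0))‖ ^ 2) z.1 z.2 := by
      intro z _
      beta_reduce
      rw [Mont_sum Z N hZ, add_zero]
    rw [Finset.sum_congr rfl h1, Mont_farey Q
      (fun q u : ℕ => ‖∑ n ∈ Z, MP_711652_nt.CH.ee ((n : ℝ) * ((u : ℝ) / q + 0))‖ ^ 2)]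
    rfl
  have hlhs' : ∑ q ∈ Icc 1 Q, SF.FF Z q 0 ≤ 8 * N * (Z.card : ℝ) := by
    rw [← hlhs]
    exact hls
  set 𝒯 := P.powerset.filter (fun T => ∏ p ∈ T, p ≤ Q) with h𝒯
  have hTP : ∀ T ∈ 𝒯, (∀ p ∈ T, p ∈ P) ∧ ∏ p ∈ T, p ≤ Q := by
    intro T hT
    rw [h𝒯, Finset.mem_filter, Finset.mem_powerset] at hT
    exact ⟨fun p hp => hT.1 hp, hT.2⟩
  have hinj : Set.InjOn (fun T : Finset ℕ => ∏ p ∈ T, p) (𝒯 : Set (Finset ℕ)) := by
    intro T hT S hS hTS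
    have h1 := Nat.primeFactors_prod (s := T) (fun p hp => (hP p ((hTP T hT).1 p hp)).1)
    have h2 := Nat.primeFactors_prod (s := S) (fun p hp => (hP p ((hTP S hS).1 p hp)).1)
    have h3 : ∏ p ∈ T, p = ∏ p ∈ S, p := hTS
    rw [← h1, ← h2, h3]
  have hnn : ∀ q : ℕ, 0 ≤ SF.FF Z q 0 := by
    intro q
    unfold SF.FF
    exact Finset.sum_nonneg (fun _ _ => sq_nonneg _)
  have hsum : ∑ T ∈ 𝒯, SF.FF Z (∏ p ∈ T, p) 0 ≤ ∑ q ∈ Icc 1 Q, SF.FF Z q 0 := by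
    rw [← Finset.sum_image (f := fun q => SF.FF Z q 0) hinj]
    refine Finset.sum_le_sum_of_subset_of_nonneg ?_ (fun q _ _ => hnn q)
    intro q hq
    rw [Finset.mem_image] at hq
    obtain ⟨T, hT, rfl⟩ := hq
    rw [Finset.mem_Icc]
    exact ⟨Finset.prod_pos (fun p hp => (hP p ((hTP T hT).1 p hp)).1.pos), (hTP T hT).2⟩
  have hlow : (∑ T ∈ 𝒯, ∏ p ∈ T, (r : ℝ) / ((p : ℝ) - r)) * (Z.card : ℝ) ^ 2 ≤
      ∑ T ∈ 𝒯, SF.FF Z (∏ p ∈ T, p) 0 := by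
    rw [Finset.sum_mul]
    refine Finset.sum_le_sum (fun T hT => ?_)
    have h1 := SF.mon_prod Z r T (fun p hp => hP p ((hTP T hT).1 p hp)) 0
    have h2 : ‖∑ n ∈ Z, MP_711652_nt.CH.ee ((n : ℝ) * 0)‖ = (Z.card : ℝ) := by
      have h3 : ∀ n ∈ Z, MP_711652_nt.CH.ee ((n : ℝ) * 0) = 1 := by
        intro n _
        unfold MP_711652_nt.CH.ee
        simp
      rw [Finset.sum_congr rfl h3]
      simp
    rw [h2] at h1
    exact h1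
  have hfin : ((Z.card : ℝ) * ∑ T ∈ 𝒯, ∏ p ∈ T, (r : ℝ) / ((p : ℝ) - r)) * (Z.card : ℝ) ≤
      (8 * N) * (Z.card : ℝ) := by
    calc ((Z.card : ℝ) * ∑ T ∈ 𝒯, ∏ p ∈ T, (r : ℝ) / ((p : ℝ) - r)) * (Z.card : ℝ)
        = (∑ T ∈ 𝒯, ∏ p ∈ T, (r : ℝ) / ((p : ℝ) - r)) * (Z.card : ℝ) ^ 2 := by ring
      _ ≤ (8 * N) * (Z.card : ℝ) := hlow.trans (hsum.trans hlhs')
  exact le_of_mul_le_mul_right hfin hZc

end Pool.Agent.H.MP_c90f74_nt.UT
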