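import Mathlib

/-!
# UT/RankA: Rankin's trick

PROOF. `∑_{T ⊆ P} ∏_T h = ∏_P (1 + h)` (`Finset.prod_one_add` or `Finset.prod_add`). For `T` with `∏ T > Q`: `1 ≤ (∏ T / Q)^δ = exp (δ (log ∏ T - log Q))`, so
`∑_{T, ∏ T > Q} ∏_T h ≤ exp (-δ log Q) ∑_T ∏_{p ∈ T} (h p * exp (δ log p)) = exp (-δ log Q) ∏ (1 + h p exp (δ log p))`, and
`1 + h e ≤ (1 + h) exp (h (e - 1))` for `h ≥ 0`, `e ≥ 1` (`1 + h e = (1 + h) + h (e - 1) ≤ (1 + h)(1 + h (e - 1))`), so this is at most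
`exp (-δ log Q + ∑ h (e - 1)) ∏ (1 + h) ≤ exp (-1) ∏ (1 + h) ≤ (1/2) ∏ (1 + h)`.
-/

set_option autoImplicit false

namespace Pool.Agent.H.MP_c90f74_nt.UT

open Finset

theorem rankin (P : Finset ℕ) (h : ℕ → ℝ) (Q : ℕ) (δ : ℝ) (hQ : 1 ≤ Q) (hδ : 0 ≤ δ)
    (hP : ∀ p ∈ P, 1 ≤ p ∧ 0 ≤ h p)
    (hs : ∑ p ∈ P, h p * (Real.exp (δ * Real.log p) - 1) + 1 ≤ δ * Real.log Q) :
    (∏ p ∈ P, (1 + h p)) / 2 ≤
      ∑ T ∈ P.powerset.filter (fun T => ∏ p ∈ T, p ≤ Q), ∏ p ∈ T, h p := by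
  classical
  have hpr : ∏ p ∈ P, (1 + h p) = ∑ T ∈ P.powerset, ∏ p ∈ T, h p := Finset.prod_one_add P
  have h0 : 0 ≤ ∏ p ∈ P, (1 + h p) :=
    Finset.prod_nonneg fun p hp => by linarith [(hP p hp).2]
  have hsplit : ∏ p ∈ P, (1 + h p) =
      ∑ T ∈ P.powerset.filter (fun T => ∏ p ∈ T, p ≤ Q), ∏ p ∈ T, h p +
        ∑ T ∈ P.powerset.filter (fun T => ¬ ∏ p ∈ T, p ≤ Q), ∏ p ∈ T, h p := by
    rw [hpr, Finset.sum_filter_add_sum_filter_not]
  have e1 : ∀ T ∈ P.powerset.filter (fun T => ¬ ∏ p ∈ T, p ≤ Q),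
      ∏ p ∈ T, h p ≤
        Real.exp (-(δ * Real.log Q)) * ∏ p ∈ T, (h p * Real.exp (δ * Real.log p)) := by
    intro T hT
    rw [Finset.mem_filter, Finset.mem_powerset] at hT
    have hh : 0 ≤ ∏ p ∈ T, h p := Finset.prod_nonneg fun p hp => (hP p (hT.1 hp)).2
    have hlog : ∑ p ∈ T, δ * Real.log (p : ℝ) = δ * Real.log ((∏ p ∈ T, p : ℕ) : ℝ) := by
      rw [← Finset.mul_sum, Nat.cast_prod, Real.log_prod]
      intro p hp
      have h1 := (hP p (hT.1 hp)).1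
      have h2 : (0 : ℝ) < p := by exact_mod_cast h1
      exact h2.ne'
    rw [Finset.prod_mul_distrib, ← Real.exp_sum, hlog]
    have hle : Real.log (Q : ℝ) ≤ Real.log ((∏ p ∈ T, p : ℕ) : ℝ) := by
      apply Real.log_le_log
      · exact_mod_cast hQ
      · exact_mod_cast (not_le.1 hT.2).le
    have hge : 1 ≤ Real.exp (-(δ * Real.log Q)) *
        Real.exp (δ * Real.log ((∏ p ∈ T, p : ℕ) : ℝ)) := by
      rw [← Real.exp_add]
      apply Real.one_le_exp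
      nlinarith [mul_le_mul_of_nonneg_left hle hδ]
    calc ∏ p ∈ T, h p = (∏ p ∈ T, h p) * 1 := (mul_one _).symm
      _ ≤ (∏ p ∈ T, h p) * (Real.exp (-(δ * Real.log Q)) *
          Real.exp (δ * Real.log ((∏ p ∈ T, p : ℕ) : ℝ))) :=
            mul_le_mul_of_nonneg_left hge hh
      _ = _ := by ring
  have e2 : ∑ T ∈ P.powerset.filter (fun T => ¬ ∏ p ∈ T, p ≤ Q), ∏ p ∈ T, h p ≤
      Real.exp (-(δ * Real.log Q)) * ∏ p ∈ P, (1 + h p * Real.exp (δ * Real.log p)) := by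
    refine (Finset.sum_le_sum e1).trans ?_
    rw [← Finset.mul_sum]
    refine mul_le_mul_of_nonneg_left ?_ (Real.exp_pos _).le
    rw [Finset.prod_one_add]
    refine Finset.sum_le_sum_of_subset_of_nonneg (Finset.filter_subset _ _) fun T hT _ => ?_
    rw [Finset.mem_powerset] at hT
    exact Finset.prod_nonneg fun p hp => mul_nonneg (hP p (hT hp)).2 (Real.exp_pos _).le
  have e3 : ∏ p ∈ P, (1 + h p * Real.exp (δ * Real.log p)) ≤
      ∏ p ∈ P, ((1 + h p) * Real.exp (h p * (Real.exp (δ * Real.log p) - 1))) := by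
    refine Finset.prod_le_prod (fun p hp => ?_) fun p hp => ?_
    · have h1 := mul_nonneg (hP p hp).2 (Real.exp_pos (δ * Real.log (p : ℝ))).le
      linarith
    · obtain ⟨h1, h2⟩ := hP p hp
      have h3 : 1 ≤ Real.exp (δ * Real.log (p : ℝ)) :=
        Real.one_le_exp (mul_nonneg hδ (Real.log_nonneg (by exact_mod_cast h1)))
      have h4 : 0 ≤ h p * (Real.exp (δ * Real.log (p : ℝ)) - 1) :=
        mul_nonneg h2 (by linarith)
      have h5 := Real.add_one_le_exp (h p * (Real.exp (δ * Real.log (p : ℝ)) - 1))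
      have h6 : (1 + h p) * (h p * (Real.exp (δ * Real.log (p : ℝ)) - 1) + 1) ≤
          (1 + h p) * Real.exp (h p * (Real.exp (δ * Real.log (p : ℝ)) - 1)) :=
        mul_le_mul_of_nonneg_left h5 (by linarith)
      have h7 : 0 ≤ h p * (h p * (Real.exp (δ * Real.log (p : ℝ)) - 1)) := mul_nonneg h2 h4
      linarith
  have e4 : ∏ p ∈ P, ((1 + h p) * Real.exp (h p * (Real.exp (δ * Real.log p) - 1))) =
      (∏ p ∈ P, (1 + h p)) *
        Real.exp (∑ p ∈ P, h p * (Real.exp (δ * Real.log p) - 1)) := by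
    rw [Finset.prod_mul_distrib, Real.exp_sum]
  have e5 : Real.exp (-(δ * Real.log Q)) *
      Real.exp (∑ p ∈ P, h p * (Real.exp (δ * Real.log p) - 1)) ≤ 1 / 2 := by
    rw [← Real.exp_add]
    calc Real.exp (-(δ * Real.log Q) + ∑ p ∈ P, h p * (Real.exp (δ * Real.log p) - 1)) ≤
          Real.exp (-1) := Real.exp_le_exp.2 (by linarith)
      _ ≤ 1 / 2 := by
          rw [Real.exp_neg, inv_eq_one_div]
          exact one_div_le_one_div_of_le two_pos (by linarith [Real.add_one_le_exp (1 : ℝ)])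
  have e6 : ∑ T ∈ P.powerset.filter (fun T => ¬ ∏ p ∈ T, p ≤ Q), ∏ p ∈ T, h p ≤
      (∏ p ∈ P, (1 + h p)) * (1 / 2) := by
    calc _ ≤ Real.exp (-(δ * Real.log Q)) * ((∏ p ∈ P, (1 + h p)) *
          Real.exp (∑ p ∈ P, h p * (Real.exp (δ * Real.log p) - 1))) := by
            rw [← e4]
            exact e2.trans (mul_le_mul_of_nonneg_left e3 (Real.exp_pos _).le)
      _ = (∏ p ∈ P, (1 + h p)) * (Real.exp (-(δ * Real.log Q)) *
          Real.exp (∑ p ∈ P, h p * (Real.exp (δ * Real.log p) - 1))) := by ring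
      _ ≤ (∏ p ∈ P, (1 + h p)) * (1 / 2) := mul_le_mul_of_nonneg_left e5 h0
  linarith

end Pool.Agent.H.MP_c90f74_nt.UT
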