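import Pool.Agent.H.MP_c90f74_nt.UT.Cnt3
import Pool.Agent.H.MP_c90f74_nt.UT.Good
import Pool.Agent.H.MP_c90f74_nt.SF.Avg

/-!
# UT/Tail: averaging over the sets of exponents

PROOF. `L = Nat.log 2 x + 1 ≥ 2`, `y = L^3 ≥ 8`, `C` from `cnt3`, `D = 6 e C`. `J` = the `j ∈ range H` with `t + 1 ≤ rep (x + 1 + j)`; the left side is `|J|` (bijection `n = x + 1 + j`) and at
most `H`. If `t > L`, `J` is empty (`rep_le`). Let `t ≤ L` and `r = ⌊t log H/(D L log L)⌋₊`. If `r = 0`: `t log H/(D L log L) < 1` and `|J| ≤ H ≤ H e exp (-...)`. If `r ≥ 1`: `z` from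
`cnt3` (`2 z ≤ x` as `z^52 ≤ H ≤ x`, `x ≥ 64`), `f j = KK y z L (x + 1 + j)`, `|f j| ≥ t` (`good2`), `2 r ≤ t` (`log H ≤ log x ≤ L`, `D log L ≥ 2`), `ρ = 2 L/t`:
`L - i ≤ L ≤ ρ (t - i)` for `i < r` as `t - i ≥ t/2`; `SF.avg`: `|J| ≤ 16 H (C r (3 log L)/log H)^r (2 L/t)^r = 16 H (6 C r L log L/(t log H))^r ≤ 16 H exp (-r) ≤ 16 e H exp (-t log H/(D L log L))`.
So the constants are `16 e` and `1/D`.
-/

set_option autoImplicit false

namespace Pool.Agent.H.MP_c90f74_nt.UT

open Finset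

/-- the set as a set of indices -/
private theorem Tail_card (x H t : ℕ) :
    {n : ℕ | x < n ∧ n ≤ x + H ∧ t + 1 ≤ rep n}.ncard =
      ((range H).filter (fun j => t + 1 ≤ rep (x + 1 + j))).card := by
  classical
  have h1 : {n : ℕ | x < n ∧ n ≤ x + H ∧ t + 1 ≤ rep n} =
      (((range H).filter (fun j => t + 1 ≤ rep (x + 1 + j))).image (fun j => x + 1 + j) :
        Finset ℕ) := by
    ext n
    rw [Finset.mem_coe, mem_image]
    constructor
    · rintro ⟨h2, h3, h4⟩
      refine ⟨n - (x + 1), mem_filter.2 ⟨mem_range.2 (by omega), ?_⟩, by omega⟩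
      rw [show x + 1 + (n - (x + 1)) = n by omega]
      exact h4
    · rintro ⟨j, hj, rfl⟩
      obtain ⟨h2, h3⟩ := mem_filter.1 hj
      rw [mem_range] at h2
      exact ⟨by omega, by omega, h3⟩
  rw [h1, Set.ncard_coe_finset, card_image_of_injective _ fun a b hab => by
    have h2 : x + 1 + a = x + 1 + b := hab
    omega]

private theorem Tail_z {z H x : ℕ} (h1 : z ^ 52 ≤ H) (h2 : H ≤ x) (h3 : 64 ≤ x) : 2 * z ≤ x := by
  rcases Nat.lt_or_ge z 2 with h | h
  · omega
  · have h4 : z ^ 2 ≤ z ^ 52 := Nat.pow_le_pow_right (by omega) (by norm_num)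
    nlinarith

/-- the main case -/
private theorem Tail_main {C : ℝ} (hC : 1 ≤ C) (hcnt : ∀ H L y r : ℕ, 2 ≤ L → L ^ 3 ≤ y → 8 ≤ y →
      1 ≤ r → 16 ≤ H → ∃ z : ℕ, z ^ 52 ≤ H ∧ ∀ (x : ℕ) (K : Finset ℕ), K ⊆ Icc 1 L → K.card = r →
      (((range H).filter (fun j => K ⊆ SF.KK y z L (x + 1 + j))).card : ℝ) ≤
        16 * H * (C * r * Real.log y / Real.log H) ^ r)
    {x H t L : ℕ} (hx : 64 ≤ x) (hH : 16 ≤ H) (hHx : H ≤ x) (hL : L = Nat.log 2 x + 1)
    (ht : t ≤ L) {A : ℝ}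
    (hA : A = t * Real.log H / (6 * Real.exp 1 * C * (L * Real.log L))) {r : ℕ}
    (hr1 : 1 ≤ r) (hr : (r : ℝ) ≤ A) :
    (((range H).filter (fun j => t + 1 ≤ rep (x + 1 + j))).card : ℝ) ≤
      16 * H * Real.exp (-r) := by
  classical
  have hL7 : 7 ≤ L := by
    have h1 : Nat.log 2 64 ≤ Nat.log 2 x := Nat.log_mono_right hx
    have h2 : Nat.log 2 64 = 6 := by norm_num [Nat.log]
    omega
  have hL7' : (7 : ℝ) ≤ L := by exact_mod_cast hL7
  have hL0 : (0 : ℝ) < L := by linarith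
  have he : Real.exp 1 < 2.7182818286 := Real.exp_one_lt_d9
  have he2 : 2.7182818283 < Real.exp 1 := Real.exp_one_gt_d9
  have hlL : 1 ≤ Real.log L := by
    rw [Real.le_log_iff_exp_le hL0]
    linarith
  have hH16 : (16 : ℝ) ≤ H := by exact_mod_cast hH
  have hH0 : (0 : ℝ) < H := by linarith
  have hlH : 0 < Real.log H := Real.log_pos (by linarith)
  have hlHL : Real.log H ≤ L := by
    have h1 : (H : ℝ) ≤ x := by exact_mod_cast hHx
    have h2 : (x : ℝ) ≤ 2 ^ L := by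
      have h3 : x < 2 ^ (Nat.log 2 x + 1) := Nat.lt_pow_succ_log_self (by norm_num) x
      rw [← hL] at h3
      exact_mod_cast h3.le
    have h3 : Real.log H ≤ Real.log (2 ^ L) := Real.log_le_log hH0 (h1.trans h2)
    rw [Real.log_pow] at h3
    have h4 : Real.log 2 ≤ 1 := by
      have := Real.log_two_lt_d9
      linarith
    nlinarith
  have hD : 12 ≤ 6 * Real.exp 1 * C := by nlinarith
  have hD0 : 0 < 6 * Real.exp 1 * C := by linarith
  have hLl : 0 < (L : ℝ) * Real.log L := by positivity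
  have hrt : 2 * (r : ℝ) ≤ t := by
    have h1 : A ≤ t / 2 := by
      rw [hA, div_le_div_iff₀ (by positivity) (by norm_num)]
      have ht0 : (0 : ℝ) ≤ t := Nat.cast_nonneg _
      have h2 : 2 * (L : ℝ) ≤ 6 * Real.exp 1 * C * (L * Real.log L) := by nlinarith
      have h3 : Real.log H * 2 ≤ 6 * Real.exp 1 * C * (L * Real.log L) := by linarith
      calc (t : ℝ) * Real.log H * 2 = t * (Real.log H * 2) := by ring
        _ ≤ t * (6 * Real.exp 1 * C * (L * Real.log L)) := mul_le_mul_of_nonneg_left h3 ht0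
    linarith
  have hr1' : (1 : ℝ) ≤ r := by exact_mod_cast hr1
  have ht1 : (2 : ℝ) ≤ t := by linarith
  have ht0 : (0 : ℝ) < t := by linarith
  have hrtN : 2 * r ≤ t := by exact_mod_cast hrt
  have hy8 : 8 ≤ L ^ 3 := by
    have h1 : 2 ^ 3 ≤ L ^ 3 := Nat.pow_le_pow_left (by omega) 3
    omega
  obtain ⟨z, hz, hzK⟩ := hcnt H L (L ^ 3) r (by omega) le_rfl hy8 hr1 hH
  have h2z := Tail_z hz hHx hx
  obtain ⟨J, hJ⟩ : ∃ J, J = (range H).filter (fun j => t + 1 ≤ rep (x + 1 + j)) := ⟨_, rfl⟩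
  rw [← hJ]
  have hlog : Real.log ((L ^ 3 : ℕ) : ℝ) = 3 * Real.log L := by
    rw [Nat.cast_pow, Real.log_pow]
    norm_num
  have hB : ∀ K ⊆ Icc 1 L, K.card = r →
      ((J.filter (fun j => K ⊆ SF.KK (L ^ 3) z L (x + 1 + j))).card : ℝ) ≤
        16 * H * (C * r * (3 * Real.log L) / Real.log H) ^ r := by
    intro K hK hKr
    have h1 := hzK x K hK hKr
    rw [hlog] at h1
    refine le_trans ?_ h1
    have h2 : (J.filter (fun j => K ⊆ SF.KK (L ^ 3) z L (x + 1 + j))).card ≤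
        ((range H).filter (fun j => K ⊆ SF.KK (L ^ 3) z L (x + 1 + j))).card := by
      refine card_le_card fun j hj => ?_
      rw [mem_filter] at hj ⊢
      rw [hJ, mem_filter] at hj
      exact ⟨hj.1.1, hj.2⟩
    exact_mod_cast h2
  have havg := SF.avg J L r t (fun j => SF.KK (L ^ 3) z L (x + 1 + j)) (by
      intro j hj
      rw [hJ, mem_filter, mem_range] at hj
      refine ⟨?_, ?_⟩
      · unfold SF.KK
        exact filter_subset _ _
      · have h1 := good2 x (x + 1 + j) (L ^ 3) z (by omega) (by omega) (by omega) h2z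
        rw [← hL] at h1
        have h2 := hj.2.trans h1
        omega)
    (16 * H * (C * r * (3 * Real.log L) / Real.log H) ^ r) (2 * L / t) (by positivity) hB
    (by omega) ht (by
      intro i hi
      have h1 : (i : ℝ) < r := by exact_mod_cast hi
      have h2 : (0 : ℝ) ≤ i := Nat.cast_nonneg _
      have h3 : (t : ℝ) / 2 ≤ t - i := by linarith
      calc (L : ℝ) - i ≤ L := by linarith
        _ = 2 * L / t * (t / 2) := by field_simp
        _ ≤ 2 * L / t * (t - i) := mul_le_mul_of_nonneg_left h3 (by positivity)) (by positivity)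
  refine havg.trans ?_
  rw [mul_assoc, ← mul_pow]
  have hq : C * r * (3 * Real.log L) / Real.log H * (2 * L / t) ≤ Real.exp (-1) := by
    have h1 : (r : ℝ) * (6 * Real.exp 1 * C * (L * Real.log L)) ≤ t * Real.log H := by
      rw [hA, le_div_iff₀ (by positivity)] at hr
      exact hr
    rw [Real.exp_neg, div_mul_div_comm, div_le_iff₀ (by positivity), ← one_div,
      div_mul_eq_mul_div, le_div_iff₀ (Real.exp_pos 1)]
    linarith
  have h5 : (C * r * (3 * Real.log L) / Real.log H * (2 * L / t)) ^ r ≤ Real.exp (-1) ^ r :=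
    pow_le_pow_left₀ (by positivity) hq r
  have h6 : Real.exp (-1) ^ r = Real.exp (-r) := by
    rw [← Real.exp_nat_mul]
    congr 1
    ring
  rw [h6] at h5
  exact mul_le_mul_of_nonneg_left h5 (by positivity)

theorem tail : ∃ C c : ℝ, 0 < C ∧ 0 < c ∧ ∀ x H t : ℕ, 64 ≤ x → 16 ≤ H → H ≤ x →
    ({n : ℕ | x < n ∧ n ≤ x + H ∧ t + 1 ≤ rep n}.ncard : ℝ) ≤
      C * H * Real.exp (-(c * t * Real.log H /
        (((Nat.log 2 x + 1 : ℕ) : ℝ) * Real.log ((Nat.log 2 x + 1 : ℕ) : ℝ)))) := by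
  classical
  obtain ⟨C, hC, hcnt⟩ := cnt3
  have hD0 : 0 < 6 * Real.exp 1 * C := by positivity
  refine ⟨16 * Real.exp 1, 1 / (6 * Real.exp 1 * C), by positivity, by positivity, ?_⟩
  intro x H t hx hH hHx
  rw [Tail_card]
  obtain ⟨L, hL⟩ : ∃ L, L = Nat.log 2 x + 1 := ⟨_, rfl⟩
  rw [← hL]
  have hH0 : (0 : ℝ) < H := by
    have : 0 < H := by omega
    exact_mod_cast this
  rcases Nat.lt_or_ge L t with ht | ht
  · have h1 : (range H).filter (fun j => t + 1 ≤ rep (x + 1 + j)) = ∅ := by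
      refine filter_eq_empty_iff.2 fun j hj h2 => ?_
      rw [mem_range] at hj
      have h3 := rep_le x (x + 1 + j) (by omega) (by omega)
      omega
    rw [h1, card_empty, Nat.cast_zero]
    positivity
  obtain ⟨A, hA⟩ : ∃ A : ℝ, A = t * Real.log H / (6 * Real.exp 1 * C * (L * Real.log L)) :=
    ⟨_, rfl⟩
  have hA' : 1 / (6 * Real.exp 1 * C) * t * Real.log H / ((L : ℝ) * Real.log L) = A := by
    rw [hA, mul_assoc, div_mul_eq_mul_div, one_mul, div_div]
  rw [hA']
  have hL1 : (1 : ℝ) ≤ L := by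
    have : 1 ≤ L := by omega
    exact_mod_cast this
  have hA0 : 0 ≤ A := by
    rw [hA]
    have h1 : 0 ≤ Real.log H := Real.log_nonneg (by
      have : 1 ≤ H := by omega
      exact_mod_cast this)
    have h2 : 0 ≤ Real.log L := Real.log_nonneg hL1
    positivity
  obtain ⟨r, hr⟩ : ∃ r, r = ⌊A⌋₊ := ⟨_, rfl⟩
  have hrA : (r : ℝ) ≤ A := by
    rw [hr]
    exact Nat.floor_le hA0
  have hAr : A < r + 1 := by
    rw [hr]
    exact Nat.lt_floor_add_one A
  have hexp : Real.exp (-(r : ℝ)) ≤ Real.exp 1 * Real.exp (-A) := by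
    rw [← Real.exp_add]
    exact Real.exp_le_exp.2 (by linarith)
  rcases Nat.eq_zero_or_pos r with h0 | h0
  · rw [h0, Nat.cast_zero, neg_zero, Real.exp_zero] at hexp
    have h1 : (((range H).filter (fun j => t + 1 ≤ rep (x + 1 + j))).card : ℝ) ≤ H := by
      have h2 := card_filter_le (range H) (fun j => t + 1 ≤ rep (x + 1 + j))
      rw [card_range] at h2
      exact_mod_cast h2
    nlinarith
  · have h1 := Tail_main hC hcnt hx hH hHx hL ht hA h0 hrA
    refine h1.trans ?_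
    calc 16 * (H : ℝ) * Real.exp (-r) ≤ 16 * H * (Real.exp 1 * Real.exp (-A)) :=
          mul_le_mul_of_nonneg_left hexp (by positivity)
      _ = 16 * Real.exp 1 * H * Real.exp (-A) := by ring

end Pool.Agent.H.MP_c90f74_nt.UT
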